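import Mathlib

/-!
# Weighted composition operators with measure preserving maps are not supercyclic
-/

set_option autoImplicit false

open MeasureTheory Filter Topology Set
open scoped ENNReal

namespace Pool.Agent.Q73.WT

variable {X : Type*} [MeasurableSpace X] {μ : Measure X} {p : ℝ≥0∞} [Fact (1 ≤ p)]

/-- the projective orbit -/
def Orb (T : Lp ℂ p μ →L[ℂ] Lp ℂ p μ) (f : Lp ℂ p μ) : Set (Lp ℂ p μ) :=
  {g | ∃ (c : ℂ) (n : ℕ), g = c • (T ^ n) f}

theorem approx_in_measure {D : Set (Lp ℂ p μ)} {g : Lp ℂ p μ} (hg : g ∈ closure D)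
    {δ : ℝ} (hδ : 0 < δ) {η : ℝ} (hη : 0 < η) :
    ∃ h ∈ D, μ.real {x | δ ≤ ‖h x - g x‖} < η := by
  obtain ⟨u, hu, hlim⟩ := mem_closure_iff_seq_limit.1 hg
  have h1 := tendstoInMeasure_of_tendsto_Lp hlim
  have h2 := (tendstoInMeasure_iff_norm.1 h1) δ hδ
  obtain ⟨n, hn⟩ := (h2.eventually (gt_mem_nhds (ENNReal.ofReal_pos.2 hη))).exists
  exact ⟨u n, hu n, ENNReal.toReal_lt_of_lt_ofReal hn⟩

theorem small_of_ne [IsFiniteMeasure μ] {u : X → ℂ} (hu : AEStronglyMeasurable u μ)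
    (h0 : ∀ᵐ x ∂μ, u x ≠ 0) {η : ℝ} (hη : 0 < η) :
    ∃ κ : ℝ, 0 < κ ∧ μ.real {x | ‖u x‖ ≤ κ} < η := by
  have h1 : Tendsto (fun n : ℕ => μ {x | ‖u x‖ ≤ 1 / ((n : ℝ) + 1)}) atTop
      (𝓝 (μ (⋂ n : ℕ, {x | ‖u x‖ ≤ 1 / ((n : ℝ) + 1)}))) := by
    apply tendsto_measure_iInter_atTop
    · intro n
      exact nullMeasurableSet_le hu.norm.aemeasurable aemeasurable_const
    · intro m n hmn x hx
      have h3 : ‖u x‖ ≤ 1 / ((n : ℝ) + 1) := hx
      show ‖u x‖ ≤ 1 / ((m : ℝ) + 1)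
      exact h3.trans (Nat.one_div_le_one_div hmn)
    · exact ⟨0, measure_ne_top _ _⟩
  have h2 : μ (⋂ n : ℕ, {x | ‖u x‖ ≤ 1 / ((n : ℝ) + 1)}) = 0 := by
    refine measure_mono_null ?_ h0
    intro x hx hx'
    have h3 : ∀ n : ℕ, ‖u x‖ ≤ 1 / ((n : ℝ) + 1) := fun n => mem_iInter.1 hx n
    exact hx' (norm_le_zero_iff.1 (ge_of_tendsto' tendsto_one_div_add_atTop_nhds_zero_nat h3))
  rw [h2] at h1
  obtain ⟨n, hn⟩ := (h1.eventually (gt_mem_nhds (ENNReal.ofReal_pos.2 hη))).exists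
  exact ⟨1 / ((n : ℝ) + 1), Nat.one_div_pos_of_nat, ENNReal.toReal_lt_of_lt_ofReal hn⟩

theorem large_small [IsFiniteMeasure μ] {u : X → ℂ} (hu : AEStronglyMeasurable u μ)
    {η : ℝ} (hη : 0 < η) : ∃ M : ℝ, 0 < M ∧ μ.real {x | M ≤ ‖u x‖} < η := by
  have h1 : Tendsto (fun n : ℕ => μ {x | (n : ℝ) + 1 ≤ ‖u x‖}) atTop
      (𝓝 (μ (⋂ n : ℕ, {x | (n : ℝ) + 1 ≤ ‖u x‖}))) := by
    apply tendsto_measure_iInter_atTop
    · intro n
      exact nullMeasurableSet_le aemeasurable_const hu.norm.aemeasurable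
    · intro m n hmn x hx
      have h3 : (m : ℝ) ≤ n := by exact_mod_cast hmn
      have h4 : (n : ℝ) + 1 ≤ ‖u x‖ := hx
      show (m : ℝ) + 1 ≤ ‖u x‖
      linarith
    · exact ⟨0, measure_ne_top _ _⟩
  have h2 : (⋂ n : ℕ, {x | (n : ℝ) + 1 ≤ ‖u x‖}) = ∅ := by
    refine eq_empty_of_forall_notMem fun x hx => ?_
    obtain ⟨n, hn⟩ := exists_nat_gt ‖u x‖
    have h3 : (n : ℝ) + 1 ≤ ‖u x‖ := mem_iInter.1 hx n
    linarith
  rw [h2, measure_empty] at h1
  obtain ⟨n, hn⟩ := (h1.eventually (gt_mem_nhds (ENNReal.ofReal_pos.2 hη))).exists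
  exact ⟨(n : ℝ) + 1, by positivity, ENNReal.toReal_lt_of_lt_ofReal hn⟩

section

variable {φ : X → ℂ} {R : X → X} (hR : MeasurePreserving R μ μ)
  {T : Lp ℂ p μ →L[ℂ] Lp ℂ p μ} (hT : ∀ f : Lp ℂ p μ, T f =ᵐ[μ] fun x => φ x * f (R x))

include hT in
theorem iter_succ (f : Lp ℂ p μ) (n : ℕ) :
    ∀ᵐ x ∂μ, ((T ^ (n + 1)) f) x = φ x * ((T ^ n) f) (R x) := by
  have h := hT ((T ^ n) f)
  rw [pow_succ']
  exact h

include hR hT in
theorem ident (f : Lp ℂ p μ) (n : ℕ) :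
    ∀ᵐ x ∂μ, ((T ^ (n + 1)) f) x * f (R^[n] x) = ((T ^ n) f) x * (T f) (R^[n] x) := by
  induction n with
  | zero =>
    refine Eventually.of_forall fun x => ?_
    simp [mul_comm]
  | succ n ih =>
    filter_upwards [iter_succ hT f (n + 1), iter_succ hT f n,
      hR.quasiMeasurePreserving.ae ih] with x h1 h2 h3
    rw [h1, h2, Function.iterate_succ_apply, mul_assoc, h3, mul_assoc]

include hR hT in
theorem zero_on (f : Lp ℂ p μ) (n : ℕ) :
    ∀ᵐ x ∂μ, f (R^[n] x) = 0 → ((T ^ n) f) x = 0 := by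
  induction n with
  | zero => exact Eventually.of_forall fun x hx => by simpa using hx
  | succ n ih =>
    filter_upwards [iter_succ hT f n, hR.quasiMeasurePreserving.ae ih] with x h1 h2 h3
    rw [h1, h2 (by rwa [Function.iterate_succ_apply] at h3), mul_zero]

variable [IsFiniteMeasure μ]

theorem coe_smul' (c : ℂ) (f : Lp ℂ p μ) : ∀ᵐ x ∂μ, (c • f) x = c * f x :=
  Lp.coeFn_smul c f

include hR hT in
theorem f_ne {f : Lp ℂ p μ} (hd : Dense (Orb T f)) : ∀ᵐ x ∂μ, f x ≠ 0 := by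
  by_contra hcon
  have hZ : μ {x | f x = 0} ≠ 0 := by
    intro h
    apply hcon
    rw [ae_iff]
    simpa using h
  have hZm : MeasurableSet {x | f x = 0} :=
    (Lp.stronglyMeasurable f).measurable (measurableSet_singleton 0)
  set g : Lp ℂ p μ := indicatorConstLp p MeasurableSet.univ (measure_ne_top μ _) (1 : ℂ) with hg
  have hgx : ∀ᵐ x ∂μ, g x = 1 := by
    filter_upwards [indicatorConstLp_coeFn (p := p) (hs := MeasurableSet.univ)
      (hμs := measure_ne_top μ _) (c := (1 : ℂ))] with x hx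
    rw [hg, hx]
    simp
  have hZ' : 0 < μ.real {x | f x = 0} := ENNReal.toReal_pos hZ (measure_ne_top _ _)
  obtain ⟨h, ⟨c, n, rfl⟩, hh⟩ := approx_in_measure (hd g) (by norm_num : (0 : ℝ) < 1 / 2) hZ'
  have h1 : μ.real {x | f x = 0} = μ.real (R^[n] ⁻¹' {x | f x = 0}) := by
    rw [measureReal_def, measureReal_def,
      (hR.iterate n).measure_preimage hZm.nullMeasurableSet]
  have h2 : μ.real (R^[n] ⁻¹' {x | f x = 0}) ≤
      μ.real {x | 1 / 2 ≤ ‖(c • (T ^ n) f) x - g x‖} := by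
    apply ENNReal.toReal_mono (measure_ne_top _ _)
    apply measure_mono_ae
    filter_upwards [zero_on hR hT f n, hgx, coe_smul' c ((T ^ n) f)] with x hx1 hx2 hx3 hx4
    have hx5 : f (R^[n] x) = 0 := hx4
    show 1 / 2 ≤ ‖(c • (T ^ n) f) x - g x‖
    rw [hx3, hx1 hx5, hx2]
    norm_num
  linarith

include hR hT in
theorem φ_ne {A : Set X} (hA : MeasurableSet A)
    (hB : μ (Aᶜ ∩ R ⁻¹' A) ≠ 0) {f : Lp ℂ p μ} (hd : Dense (Orb T f)) :
    ∀ᵐ x ∂μ, φ x ≠ 0 := by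
  by_contra hcon
  have hZ : μ {x | φ x = 0} ≠ 0 := by
    intro h
    apply hcon
    rw [ae_iff]
    simpa using h
  have hZ' : 0 < μ.real {x | φ x = 0} := ENNReal.toReal_pos hZ (measure_ne_top _ _)
  have hAc : μ Aᶜ ≠ 0 := fun h => hB (measure_mono_null inter_subset_left h)
  have hA0 : μ A ≠ 0 := fun h => by
    rw [← hR.measure_preimage hA.nullMeasurableSet] at h
    exact hB (measure_mono_null inter_subset_right h)
  set g1 : Lp ℂ p μ := indicatorConstLp p MeasurableSet.univ (measure_ne_top μ _) (1 : ℂ) with hg1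
  have hg1x : ∀ᵐ x ∂μ, g1 x = 1 := by
    filter_upwards [indicatorConstLp_coeFn (p := p) (hs := MeasurableSet.univ)
      (hμs := measure_ne_top μ _) (c := (1 : ℂ))] with x hx
    rw [hg1, hx]
    simp
  set g2 : Lp ℂ p μ := g1 + indicatorConstLp p hA (measure_ne_top μ _) (1 : ℂ) with hg2
  have hg2x : ∀ᵐ x ∂μ, g2 x = 1 + A.indicator (fun _ => (1 : ℂ)) x := by
    filter_upwards [indicatorConstLp_coeFn (p := p) (hs := hA)
      (hμs := measure_ne_top μ _) (c := (1 : ℂ)), hg1x,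
      Lp.coeFn_add g1 (indicatorConstLp p hA (measure_ne_top μ _) (1 : ℂ))] with x hx hx1 hx2
    rw [hg2, hx2, Pi.add_apply, hx, hx1]
  set V : Submodule ℂ (Lp ℂ p μ) := Submodule.span ℂ {f} with hV
  have hVc : IsOpen ((V : Set (Lp ℂ p μ))ᶜ) := (Submodule.closed_of_finiteDimensional V).isOpen_compl
  have hnot : g1 ∉ V ∨ g2 ∉ V := by
    by_contra hc
    push Not at hc
    obtain ⟨h1, h2⟩ := hc
    obtain ⟨a, ha⟩ := Submodule.mem_span_singleton.1 h1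
    obtain ⟨b, hb⟩ := Submodule.mem_span_singleton.1 h2
    have h3 : ∀ᵐ x ∂μ, a * (1 + A.indicator (fun _ => (1 : ℂ)) x) = b := by
      filter_upwards [hg1x, hg2x, coe_smul' a f, coe_smul' b f] with x hx1 hx2 hx3 hx4
      rw [ha] at hx3
      rw [hb] at hx4
      rw [← hx2, hx4, mul_left_comm, ← hx3, hx1, mul_one]
    have ha0 : a ≠ 0 := by
      rintro rfl
      have h4 : ∀ᵐ x ∂μ, x ∉ A := by
        filter_upwards [hg1x, coe_smul' (0 : ℂ) f] with x hx1 hx3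
        rw [ha, hx1, zero_mul] at hx3
        exact absurd hx3 one_ne_zero
      exact hA0 (by rw [ae_iff] at h4; simpa using h4)
    have h5 : ∃ x, x ∈ A ∧ a * (1 + A.indicator (fun _ => (1 : ℂ)) x) = b := by
      by_contra hc
      push Not at hc
      apply hA0
      refine measure_mono_null (fun x hx => ?_) (ae_iff.1 h3)
      exact hc x hx
    have h6 : ∃ x, x ∈ Aᶜ ∧ a * (1 + A.indicator (fun _ => (1 : ℂ)) x) = b := by
      by_contra hc
      push Not at hc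
      apply hAc
      refine measure_mono_null (fun x hx => ?_) (ae_iff.1 h3)
      exact hc x hx
    obtain ⟨x, hx, hx1⟩ := h5
    obtain ⟨y, hy, hy1⟩ := h6
    rw [indicator_of_mem hx] at hx1
    rw [indicator_of_notMem hy] at hy1
    have h7 : a * 1 = 0 := by linear_combination hx1 - hy1
    exact ha0 (by simpa using h7)
  have key : ∀ g : Lp ℂ p μ, g ∉ V → (∀ᵐ x ∂μ, 1 ≤ ‖g x‖) → False := by
    intro g hgV hgx
    have hcl : g ∈ closure ((V : Set (Lp ℂ p μ))ᶜ ∩ Orb T f) :=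
      hd.open_subset_closure_inter hVc hgV
    obtain ⟨h, ⟨hhV, c, n, rfl⟩, hh⟩ := approx_in_measure hcl one_pos hZ'
    have hn : n ≠ 0 := by
      rintro rfl
      apply hhV
      simp only [pow_zero, SetLike.mem_coe]
      exact Submodule.smul_mem _ _ (Submodule.mem_span_singleton_self f)
    obtain ⟨m, rfl⟩ := Nat.exists_eq_succ_of_ne_zero hn
    have h2 : μ.real {x | φ x = 0} ≤ μ.real {x | 1 ≤ ‖(c • (T ^ (m + 1)) f) x - g x‖} := by
      apply ENNReal.toReal_mono (measure_ne_top _ _)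
      apply measure_mono_ae
      filter_upwards [iter_succ hT f m, hgx, coe_smul' c ((T ^ (m + 1)) f)] with x hx1 hx2 hx3 hx4
      have hx5 : φ x = 0 := hx4
      show 1 ≤ ‖(c • (T ^ (m + 1)) f) x - g x‖
      rw [hx3, hx1, hx5]
      simpa using hx2
    exact absurd hh (not_lt.2 h2)
  rcases hnot with h | h
  · refine key g1 h ?_
    filter_upwards [hg1x] with x hx
    rw [hx]
    simp
  · refine key g2 h ?_
    filter_upwards [hg2x] with x hx
    rw [hx]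
    by_cases hxA : x ∈ A
    · rw [indicator_of_mem hxA]
      norm_num
    · rw [indicator_of_notMem hxA]
      simp

include hR hT in
/-- **Not supercyclic.** -/
theorem notDense_of_move (hφ : AEStronglyMeasurable φ μ) {A : Set X} (hA : MeasurableSet A)
    (hB : μ (Aᶜ ∩ R ⁻¹' A) ≠ 0) (f : Lp ℂ p μ) : ¬ Dense (Orb T f) := by
  intro hd
  have hf0 := f_ne hR hT hd
  have hφ0 := φ_ne hR hT hA hB hd
  set b : ℝ := μ.real (Aᶜ ∩ R ⁻¹' A) with hb
  have hb0 : 0 < b := ENNReal.toReal_pos hB (measure_ne_top _ _)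
  obtain ⟨κ1, hκ1, hE4⟩ := small_of_ne (Lp.aestronglyMeasurable f) hf0 (by positivity : 0 < b / 8)
  obtain ⟨κ2, hκ2, hE3⟩ := small_of_ne hφ hφ0 (by positivity : 0 < b / 8)
  obtain ⟨M, hM, hE5⟩ := large_small (Lp.aestronglyMeasurable (T f)) (by positivity : 0 < b / 8)
  set δ : ℝ := min (1 / 2) (κ1 * κ2 / (4 * M)) with hδ
  have hδ0 : 0 < δ := lt_min (by norm_num) (by positivity)
  have hδ1 : δ ≤ 1 / 2 := min_le_left _ _
  have hδ2 : δ * M ≤ κ1 * κ2 / 4 := by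
    have h1 : δ ≤ κ1 * κ2 / (4 * M) := min_le_right _ _
    calc δ * M ≤ κ1 * κ2 / (4 * M) * M := mul_le_mul_of_nonneg_right h1 hM.le
      _ = κ1 * κ2 / 4 := by field_simp
  set g : Lp ℂ p μ := indicatorConstLp p hA (measure_ne_top μ _) (1 : ℂ) with hg
  have hgx : ∀ᵐ x ∂μ, g x = A.indicator (fun _ => (1 : ℂ)) x :=
    indicatorConstLp_coeFn (p := p) (hs := hA) (hμs := measure_ne_top μ _) (c := (1 : ℂ))
  obtain ⟨h, ⟨c, n, rfl⟩, hE1⟩ := approx_in_measure (hd g) hδ0 (by positivity : 0 < b / 8)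
  set E1 : Set X := {x | δ ≤ ‖(c • (T ^ n) f) x - g x‖} with hE1d
  have hE1m : MeasurableSet E1 :=
    measurableSet_le measurable_const ((Lp.stronglyMeasurable _).sub
      (Lp.stronglyMeasurable _)).norm.measurable
  have hE2 : μ.real (R ⁻¹' E1) < b / 8 := by
    rw [measureReal_def, hR.measure_preimage hE1m.nullMeasurableSet]
    exact hE1
  have hE4' : μ.real (R^[n] ⁻¹' {x | ‖f x‖ ≤ κ1}) < b / 8 := by
    rw [measureReal_def, (hR.iterate n).measure_preimage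
      (measurableSet_le (Lp.stronglyMeasurable f).norm.measurable
        measurable_const).nullMeasurableSet]
    exact hE4
  have hE5' : μ.real (R^[n] ⁻¹' {x | M ≤ ‖(T f) x‖}) < b / 8 := by
    rw [measureReal_def, (hR.iterate n).measure_preimage
      (measurableSet_le measurable_const
        (Lp.stronglyMeasurable (T f)).norm.measurable).nullMeasurableSet]
    exact hE5
  have hsub : μ.real (Aᶜ ∩ R ⁻¹' A) ≤ μ.real (((E1 ∪ R ⁻¹' E1) ∪ {x | ‖φ x‖ ≤ κ2}) ∪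
      (R^[n] ⁻¹' {x | ‖f x‖ ≤ κ1} ∪ R^[n] ⁻¹' {x | M ≤ ‖(T f) x‖})) := by
    apply ENNReal.toReal_mono (measure_ne_top _ _)
    apply measure_mono_ae
    filter_upwards [ident hR hT f n, iter_succ hT f n, hgx,
      hR.quasiMeasurePreserving.ae hgx, coe_smul' c ((T ^ n) f),
      hR.quasiMeasurePreserving.ae (coe_smul' c ((T ^ n) f))] with x i1 i2 i3 i4 i5 i6 hx
    by_contra hcon
    have hx1 : x ∉ A := hx.1
    have hx2 : R x ∈ A := hx.2
    have hcon' : ¬ ((((x ∈ E1) ∨ (R x ∈ E1)) ∨ ‖φ x‖ ≤ κ2) ∨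
      (‖f (R^[n] x)‖ ≤ κ1 ∨ M ≤ ‖(T f) (R^[n] x)‖)) := hcon
    push Not at hcon'
    obtain ⟨⟨⟨c1, c2⟩, c3⟩, c4, c5⟩ := hcon'
    have c1' : ‖(c • (T ^ n) f) x - g x‖ < δ := not_le.1 c1
    have c2' : ‖(c • (T ^ n) f) (R x) - g (R x)‖ < δ := not_le.1 c2
    rw [i5, i3, indicator_of_notMem hx1, sub_zero] at c1'
    rw [i6, i4, indicator_of_mem hx2] at c2'
    have c6 : 1 / 2 ≤ ‖c * ((T ^ n) f) (R x)‖ := by
      have h1 : ‖(1 : ℂ)‖ ≤ ‖c * ((T ^ n) f) (R x)‖ + ‖c * ((T ^ n) f) (R x) - 1‖ := by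
        have := norm_sub_norm_le (1 : ℂ) (c * ((T ^ n) f) (R x))
        rw [norm_sub_rev] at this
        linarith
      rw [norm_one] at h1
      linarith
    -- the identity
    have e1 : φ x * (c * ((T ^ n) f) (R x)) * f (R^[n] x) =
        c * ((T ^ n) f) x * (T f) (R^[n] x) := by
      have e2 : φ x * ((T ^ n) f) (R x) * f (R^[n] x) = ((T ^ n) f) x * (T f) (R^[n] x) := by
        rw [← i2]
        exact i1
      linear_combination c * e2
    have e3 : κ2 * (1 / 2) * κ1 ≤ ‖φ x * (c * ((T ^ n) f) (R x)) * f (R^[n] x)‖ := by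
      rw [norm_mul, norm_mul (φ x)]
      gcongr
    have e4 : ‖c * ((T ^ n) f) x * (T f) (R^[n] x)‖ ≤ δ * M := by
      rw [norm_mul (c * ((T ^ n) f) x)]
      gcongr
    rw [e1] at e3
    have e5 : κ1 * κ2 / 2 ≤ κ1 * κ2 / 4 := by
      calc κ1 * κ2 / 2 = κ2 * (1 / 2) * κ1 := by ring
        _ ≤ δ * M := e3.trans e4
        _ ≤ κ1 * κ2 / 4 := hδ2
    have : 0 < κ1 * κ2 := by positivity
    linarith
  have hu1 := measureReal_union_le (μ := μ) ((E1 ∪ R ⁻¹' E1) ∪ {x | ‖φ x‖ ≤ κ2})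
    (R^[n] ⁻¹' {x | ‖f x‖ ≤ κ1} ∪ R^[n] ⁻¹' {x | M ≤ ‖(T f) x‖})
  have hu2 := measureReal_union_le (μ := μ) (E1 ∪ R ⁻¹' E1) {x | ‖φ x‖ ≤ κ2}
  have hu3 := measureReal_union_le (μ := μ) E1 (R ⁻¹' E1)
  have hu4 := measureReal_union_le (μ := μ) (R^[n] ⁻¹' {x | ‖f x‖ ≤ κ1})
    (R^[n] ⁻¹' {x | M ≤ ‖(T f) x‖})
  have hE1' : μ.real E1 < b / 8 := hE1
  linarith

/-- **Multiplication operators are not supercyclic.** -/
theorem notDense_of_mul (hT' : ∀ f : Lp ℂ p μ, T f =ᵐ[μ] fun x => φ x * f x)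
    {A : Set X} (hA : MeasurableSet A) (hA0 : μ A ≠ 0) (hAc : μ Aᶜ ≠ 0) (f : Lp ℂ p μ) :
    ¬ Dense (Orb T f) := by
  intro hd
  have hR' : MeasurePreserving (id : X → X) μ μ := MeasurePreserving.id μ
  have hf0 := f_ne hR' hT' hd
  have hpow : ∀ n : ℕ, ∀ᵐ x ∂μ, ((T ^ n) f) x = φ x ^ n * f x := by
    intro n
    induction n with
    | zero => exact Eventually.of_forall fun x => by simp
    | succ n ih =>
      filter_upwards [iter_succ (R := id) hT' f n, ih] with x h1 h2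
      rw [h1, id, h2, pow_succ']
      ring
  -- `|φ|` is larger on `S` than on the complement
  have key : ∀ S : Set X, MeasurableSet S → ∀ b : ℝ, 0 < b →
      ∃ E : Set X, μ.real E < b ∧ ∀ x ∈ S, x ∉ E → ∀ y ∉ S, y ∉ E → ‖φ y‖ < ‖φ x‖ := by
    intro S hS b hb
    obtain ⟨κ, hκ, hκm⟩ := small_of_ne (Lp.aestronglyMeasurable f) hf0
      (by positivity : 0 < b / 4)
    obtain ⟨M, hM, hMm⟩ := large_small (Lp.aestronglyMeasurable f) (by positivity : 0 < b / 4)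
    set δ : ℝ := min (1 / 2) (κ / (4 * M)) with hδ
    have hδ0 : 0 < δ := lt_min (by norm_num) (by positivity)
    have hδ1 : δ ≤ 1 / 2 := min_le_left _ _
    have hδ2 : δ ≤ κ / (4 * M) := min_le_right _ _
    set g : Lp ℂ p μ := indicatorConstLp p hS (measure_ne_top μ _) (1 : ℂ) with hg
    have hgx : ∀ᵐ x ∂μ, g x = S.indicator (fun _ => (1 : ℂ)) x :=
      indicatorConstLp_coeFn (p := p) (hs := hS) (hμs := measure_ne_top μ _) (c := (1 : ℂ))
    obtain ⟨h, ⟨c, n, rfl⟩, hE1⟩ := approx_in_measure (hd g) hδ0 (by positivity : 0 < b / 4)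
    -- the exceptional null set
    have hnull : ∀ᵐ x ∂μ, (c • (T ^ n) f) x = c * (φ x ^ n * f x) ∧
        g x = S.indicator (fun _ => (1 : ℂ)) x := by
      filter_upwards [coe_smul' c ((T ^ n) f), hpow n, hgx] with x h1 h2 h3
      exact ⟨by rw [h1, h2], h3⟩
    set N : Set X := {x | ¬ ((c • (T ^ n) f) x = c * (φ x ^ n * f x) ∧
        g x = S.indicator (fun _ => (1 : ℂ)) x)} with hN
    have hN0 : μ.real N = 0 := by
      rw [measureReal_def, ae_iff.1 hnull]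
      rfl
    refine ⟨(N ∪ {x | δ ≤ ‖(c • (T ^ n) f) x - g x‖}) ∪ ({x | ‖f x‖ ≤ κ} ∪ {x | M ≤ ‖f x‖}),
      ?_, ?_⟩
    · have hu1 := measureReal_union_le (μ := μ) (N ∪ {x | δ ≤ ‖(c • (T ^ n) f) x - g x‖})
        ({x | ‖f x‖ ≤ κ} ∪ {x | M ≤ ‖f x‖})
      have hu2 := measureReal_union_le (μ := μ) N {x | δ ≤ ‖(c • (T ^ n) f) x - g x‖}
      have hu3 := measureReal_union_le (μ := μ) {x | ‖f x‖ ≤ κ} {x | M ≤ ‖f x‖}
      linarith
    · intro x hxS hx y hyS hy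
      have hx' : ¬ ((x ∈ N ∨ δ ≤ ‖(c • (T ^ n) f) x - g x‖) ∨ (‖f x‖ ≤ κ ∨ M ≤ ‖f x‖)) := hx
      have hy' : ¬ ((y ∈ N ∨ δ ≤ ‖(c • (T ^ n) f) y - g y‖) ∨ (‖f y‖ ≤ κ ∨ M ≤ ‖f y‖)) := hy
      push Not at hx' hy'
      obtain ⟨⟨x1, x2⟩, x3, x4⟩ := hx'
      obtain ⟨⟨y1, y2⟩, y3, y4⟩ := hy'
      have x5 := not_not.1 x1
      have y5 := not_not.1 y1
      rw [x5.1, x5.2, indicator_of_mem hxS] at x2
      rw [y5.1, y5.2, indicator_of_notMem hyS, sub_zero] at y2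
      have x6 : 1 / 2 ≤ ‖c * (φ x ^ n * f x)‖ := by
        have h1 : ‖(1 : ℂ)‖ ≤ ‖c * (φ x ^ n * f x)‖ + ‖c * (φ x ^ n * f x) - 1‖ := by
          have := norm_sub_norm_le (1 : ℂ) (c * (φ x ^ n * f x))
          rw [norm_sub_rev] at this
          linarith
        rw [norm_one] at h1
        linarith
      rw [norm_mul, norm_mul, norm_pow] at x6 y2
      by_contra hlt
      push Not at hlt
      have h1 : ‖φ x‖ ^ n ≤ ‖φ y‖ ^ n := pow_le_pow_left₀ (norm_nonneg _) hlt n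
      have h2 : 1 / 2 ≤ ‖c‖ * (‖φ x‖ ^ n * M) := x6.trans (by gcongr)
      have h3 : ‖c‖ * (‖φ y‖ ^ n * κ) ≤ δ := by
        refine le_trans ?_ y2.le
        gcongr
      have h4 : ‖c‖ * ‖φ y‖ ^ n ≤ 1 / (4 * M) := by
        have h5 : ‖c‖ * ‖φ y‖ ^ n * κ ≤ κ / (4 * M) := by
          calc ‖c‖ * ‖φ y‖ ^ n * κ = ‖c‖ * (‖φ y‖ ^ n * κ) := by ring
            _ ≤ κ / (4 * M) := h3.trans hδ2
        have h6 : κ / (4 * M) = 1 / (4 * M) * κ := by ring
        rw [h6] at h5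
        exact le_of_mul_le_mul_right h5 hκ
      have h7 : ‖c‖ * (‖φ x‖ ^ n * M) ≤ 1 / 4 := by
        calc ‖c‖ * (‖φ x‖ ^ n * M) = ‖c‖ * ‖φ x‖ ^ n * M := by ring
          _ ≤ ‖c‖ * ‖φ y‖ ^ n * M := by gcongr
          _ ≤ 1 / (4 * M) * M := by gcongr
          _ = 1 / 4 := by field_simp
      linarith
  have h1 : 0 < μ.real A := ENNReal.toReal_pos hA0 (measure_ne_top _ _)
  have h2 : 0 < μ.real Aᶜ := ENNReal.toReal_pos hAc (measure_ne_top _ _)
  have hm : 0 < min (μ.real A / 2) (μ.real Aᶜ / 2) := lt_min (by positivity) (by positivity)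
  obtain ⟨E1, hE1, k1⟩ := key A hA _ hm
  obtain ⟨E2, hE2, k2⟩ := key Aᶜ hA.compl _ hm
  have hmin1 := min_le_left (μ.real A / 2) (μ.real Aᶜ / 2)
  have hmin2 := min_le_right (μ.real A / 2) (μ.real Aᶜ / 2)
  have hx : ∃ x ∈ A, x ∉ E1 ∧ x ∉ E2 := by
    by_contra hc
    push Not at hc
    have h3 : A ⊆ E1 ∪ E2 := fun x hx => by
      by_cases h : x ∈ E1
      · exact Or.inl h
      · exact Or.inr (hc x hx h)
    have h4 := (measureReal_mono (μ := μ) h3 (measure_ne_top _ _)).trans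
      (measureReal_union_le E1 E2)
    linarith
  have hy : ∃ y ∈ Aᶜ, y ∉ E1 ∧ y ∉ E2 := by
    by_contra hc
    push Not at hc
    have h3 : Aᶜ ⊆ E1 ∪ E2 := fun x hx => by
      by_cases h : x ∈ E1
      · exact Or.inl h
      · exact Or.inr (hc x hx h)
    have h4 := (measureReal_mono (μ := μ) h3 (measure_ne_top _ _)).trans
      (measureReal_union_le E1 E2)
    linarith
  obtain ⟨x, hxA, hx1, hx2⟩ := hx
  obtain ⟨y, hyA, hy1, hy2⟩ := hy
  have h5 := k1 x hxA hx1 y hyA hy1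
  have h6 := k2 y hyA hy2 x (not_not.2 hxA) hx2
  exact lt_asymm h5 h6

end

end Pool.Agent.Q73.WT
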